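import Mathlib
import Pool.Agent.H15.Bal

set_option autoImplicit false

namespace Pool.Agent.Results.MP_da2089_gt.Prod

open Set

/-- A connected coarse structure. -/
structure IsBallean {X : Type*} (𝓔 : Set (Set (X × X))) : Prop where
  diag : diagonal X ∈ 𝓔
  sub : ∀ E ∈ 𝓔, ∀ F, F ⊆ E → F ∈ 𝓔
  union : ∀ E ∈ 𝓔, ∀ F ∈ 𝓔, E ∪ F ∈ 𝓔
  inv : ∀ E ∈ 𝓔, {p | (p.2, p.1) ∈ E} ∈ 𝓔
  comp : ∀ E ∈ 𝓔, ∀ F ∈ 𝓔, {p | ∃ y, (p.1, y) ∈ E ∧ (y, p.2) ∈ F} ∈ 𝓔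
  conn : ∀ x y, ∃ E ∈ 𝓔, (x, y) ∈ E

/-- Bounded sets: subsets of balls. -/
def Bdd {X : Type*} (𝓔 : Set (Set (X × X))) (B : Set X) : Prop :=
  ∃ E ∈ 𝓔, ∃ x, ∀ y ∈ B, (x, y) ∈ E

/-- Eventually macro-uniform functions. -/
def Osc {X : Type*} (𝓔 : Set (Set (X × X))) (f : X → ℝ) : Prop :=
  ∀ E ∈ 𝓔, ∃ B C, Bdd 𝓔 B ∧ ∀ x ∉ B, ∀ y z, (x, y) ∈ E → (x, z) ∈ E → |f y - f z| ≤ C

/-- Every such function is bounded off a bounded set. -/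
def OscBounded {X : Type*} (𝓔 : Set (Set (X × X))) : Prop :=
  ∀ f : X → ℝ, Osc 𝓔 f → ∃ B C, Bdd 𝓔 B ∧ ∀ x ∉ B, |f x| ≤ C

/-- The product coarse structure. -/
def prodE {X Y : Type*} (𝓔 : Set (Set (X × X))) (𝓕 : Set (Set (Y × Y))) :
    Set (Set ((X × Y) × (X × Y))) :=
  {D | ∃ E ∈ 𝓔, ∃ F ∈ 𝓕, ∀ p ∈ D, (p.1.1, p.2.1) ∈ E ∧ (p.1.2, p.2.2) ∈ F}

def id' {X : Type*} {𝓔 : Set (Set (X × X))} (h : IsBallean 𝓔) : H15.Bal.Id X where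
  sm := Bdd 𝓔
  mono k := fun ⟨E, hE, x, hx⟩ => ⟨E, hE, x, fun y hy => hx y (k hy)⟩
  un := fun ⟨E, hE, x, hx⟩ ⟨F, hF, z, hz⟩ => let ⟨G, hG, k⟩ := h.conn x z
    ⟨_, h.union _ hE _ (h.comp _ hG _ hF), x, fun y hy =>
      hy.elim (fun a => .inl (hx y a)) fun a => .inr ⟨z, k, hz y a⟩⟩

variable {X Y : Type*} {𝓔 : Set (Set (X × X))} {𝓕 : Set (Set (Y × Y))} {f : X × Y → ℝ}

lemma bswap {B : Set (X × Y)} (h : Bdd (prodE 𝓔 𝓕) B) : Bdd (prodE 𝓕 𝓔) (Prod.swap ⁻¹' B) :=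
  let ⟨_, ⟨E, hE, F, hF, k⟩, a, ha⟩ := h
  ⟨_, ⟨F, hF, E, hE, fun _ h => h⟩, a.swap, fun y hy => (k _ (ha _ hy)).symm⟩

lemma bfst {B : Set (X × Y)} (h : Bdd (prodE 𝓔 𝓕) B) : Bdd 𝓔 (Prod.fst '' B) :=
  let ⟨_, ⟨E, hE, _, _, k⟩, a, ha⟩ := h
  ⟨E, hE, a.1, forall_mem_image.2 fun y hy => (k _ (ha y hy)).1⟩

lemma flip (hf : Osc (prodE 𝓔 𝓕) f) : Osc (prodE 𝓕 𝓔) fun p => f p.swap :=
  fun _ ⟨F, hF, E, hE, k⟩ => let ⟨_, C, hB, h⟩ := hf _ ⟨E, hE, F, hF, fun _ h => h⟩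
    ⟨_, C, bswap hB, fun x hx _ _ hy hz => h x.swap hx _ _ (k _ hy).symm (k _ hz).symm⟩

lemma lip (hF : IsBallean 𝓕) (hf : Osc (prodE 𝓔 𝓕) f) (h : X → ℝ)
    (k : ∀ x x' c, (∀ y, |f (x, y) - f (x', y)| ≤ c) → 0 ≤ c → |h x - h x'| ≤ c) : Osc 𝓔 h :=
  fun E hE => let ⟨_, C, hB, hC⟩ := hf _ ⟨E, hE, _, hF.diag, fun _ h => h⟩
    ⟨_, |C|, bfst hB, fun x hx _ _ hu hv => k _ _ _ (fun y => (hC (x, y)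
      (fun m => hx ⟨_, m, rfl⟩) (_, y) (_, y) ⟨hu, rfl⟩ ⟨hv, rfl⟩).trans (le_abs_self _)) (abs_nonneg _)⟩

lemma strip (hE : IsBallean 𝓔) (hF : IsBallean 𝓕) (bE : OscBounded 𝓔) (hf : Osc (prodE 𝓔 𝓕) f)
    (T : Set Y) (hT : Bdd 𝓕 T) : ∃ S C, Bdd 𝓔 S ∧ ∀ x ∉ S, ∀ y ∈ T, |f (x, y)| ≤ C := by
  obtain ⟨F, h, b, hb⟩ := hT
  obtain ⟨S, C, hS, hC⟩ := bE (fun x => f (x, b)) (lip hF hf _ fun _ _ _ k _ => k b)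
  obtain ⟨B, D, hB, hD⟩ := hf _ ⟨_, hE.diag, _, hF.union _ h _ hF.diag, fun _ h => h⟩
  refine ⟨_, D + C, (id' hE).un hS (bfst hB), fun x hx y hy => ?_⟩
  linarith [hC x fun m => hx (.inl m), abs_sub_abs_le_abs_sub (f (x, y)) (f (x, b)),
    hD (x, b) (fun m => hx (.inr ⟨_, m, rfl⟩)) (x, y) (x, b) ⟨rfl, .inl (hb y hy)⟩ ⟨rfl, .inr rfl⟩]

/-- The product of two emu-bounded balleans is emu-bounded. -/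
theorem result {X Y : Type*} (𝓔 : Set (Set (X × X))) (𝓕 : Set (Set (Y × Y))) (hE : IsBallean 𝓔)
    (hF : IsBallean 𝓕) (bE : OscBounded 𝓔) (bF : OscBounded 𝓕) : OscBounded (prodE 𝓔 𝓕) := by
  intro f hf
  have hf' := flip hf
  obtain ⟨S, T, C, ⟨⟨E, hE, a, ha⟩, F, hF, b, hb⟩, h⟩ := ((fun ⟨S, T, C, h1, h2, h3⟩ =>
    ⟨S, T, C, ⟨h1, h2⟩, h3⟩) (H15.Bal.core (id' hE) (id' hF) (fun x y => f (x, y))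
    (fun h k => bE h (lip hF hf h k)) (fun h k => bF h (lip hE hf' h k))
    (fun S hS => by
      obtain ⟨T, C, h1, h2⟩ := strip hF hE bF hf' S hS
      exact ⟨T, C, h1, fun i hi j hj => h2 j hj i hi⟩) (strip hE hF bE hf)) :
    ∃ S T C, (Bdd 𝓔 S ∧ Bdd 𝓕 T) ∧ ∀ x y, ¬ (x ∈ S ∧ y ∈ T) → |f (x, y)| ≤ C)
  exact ⟨S ×ˢ T, C, ⟨_, ⟨E, hE, F, hF, fun _ h => h⟩, (a, b), fun y hy => ⟨ha _ hy.1, hb _ hy.2⟩⟩,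
    fun p hp => h p.1 p.2 hp⟩

end Pool.Agent.Results.MP_da2089_gt.Prod
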